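import Mathlib

set_option autoImplicit false

open Set Topology

namespace Pool.Agent.Results.MP_7f09f8_gt.LinearEmbedding

universe u v

/-- The space `C_p(X)`: the linear space of all continuous real functions on `X`, as a subspace of
the product `X → ℝ`; its topology (inherited from the product) is the topology of pointwise
convergence. -/
def Cp (X : Type u) [TopologicalSpace X] : Submodule ℝ (X → ℝ) where
  carrier := {f | Continuous f}
  add_mem' := fun hf hg => hf.add hg
  zero_mem' := continuous_const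
  smul_mem' := fun c _ hf => hf.const_smul c

section functional

variable {X : Type u} [TopologicalSpace X]

/-- evaluation functional -/
def ev (x : X) : Cp X →ₗ[ℝ] ℝ where
  toFun f := (f : X → ℝ) x
  map_add' _ _ := rfl
  map_smul' _ _ := rfl

/-- A linear functional on `C_p(X)` bounded on a basic neighbourhood of zero is a finite
combination of evaluations. -/
lemma mem_span_ev {ι : Type*} [Finite ι] (L : ι → Cp X →ₗ[ℝ] ℝ) (K : Cp X →ₗ[ℝ] ℝ)
    (ε : ℝ) (hε : 0 < ε) (h : ∀ f : Cp X, (∀ i, |L i f| < ε) → |K f| < 1) :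
    K ∈ Submodule.span ℝ (Set.range L) := by
  apply mem_span_of_iInf_ker_le_ker
  intro f hf
  rw [Submodule.mem_iInf] at hf
  have hf' : ∀ i, L i f = 0 := fun i => by simpa using hf i
  rw [LinearMap.mem_ker]
  by_contra hne
  have h1 := h ((2 / K f) • f) (fun i => by simp [hf' i, hε])
  rw [map_smul, smul_eq_mul, div_mul_cancel₀ _ hne] at h1
  norm_num at h1

/-- every continuous linear functional bounded near zero is a finitely supported measure -/
lemma exists_finsupp (K : Cp X →ₗ[ℝ] ℝ) (hK : Continuous K) :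
    ∃ μ : X →₀ ℝ, ∀ f : Cp X, K f = Finsupp.linearCombination ℝ (f : X → ℝ) μ := by
  classical
  have hU : K ⁻¹' (Metric.ball 0 1) ∈ 𝓝 (0 : Cp X) := by
    apply hK.continuousAt.preimage_mem_nhds
    simpa using Metric.ball_mem_nhds (0 : ℝ) one_pos
  obtain ⟨s, ε, hε, hs⟩ : ∃ (s : Finset X) (ε : ℝ), 0 < ε ∧
      ∀ f : Cp X, (∀ x ∈ s, |(f : X → ℝ) x| < ε) → |K f| < 1 := by
    rw [nhds_subtype_eq_comap, Filter.mem_comap] at hU
    obtain ⟨t, ht, htU⟩ := hU
    have ht' : t ∈ 𝓝 (0 : X → ℝ) := by simpa using ht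
    rw [nhds_pi, Filter.mem_pi] at ht'
    obtain ⟨I, hI, W, hW, hWt⟩ := ht'
    have : ∀ x, ∃ ε > 0, Metric.ball (0 : ℝ) ε ⊆ W x := fun x => Metric.mem_nhds_iff.1 (hW x)
    choose e he heW using this
    obtain ⟨ε, hε, hεle⟩ : ∃ ε > 0, ∀ x ∈ hI.toFinset, ε ≤ e x := by
      by_cases hne : hI.toFinset.Nonempty
      · refine ⟨hI.toFinset.inf' hne e, ?_, fun x hx => Finset.inf'_le _ hx⟩
        rw [gt_iff_lt, Finset.lt_inf'_iff]
        exact fun x _ => he x
      · exact ⟨1, one_pos, fun x hx => (hne ⟨x, hx⟩).elim⟩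
    refine ⟨hI.toFinset, ε, hε, fun f hf => ?_⟩
    have : f ∈ K ⁻¹' (Metric.ball 0 1) := by
      apply htU
      apply hWt
      intro x hx
      apply heW x
      rw [Metric.mem_ball, dist_zero_right]
      exact (hf x (by simpa using hx)).trans_le (hεle x (by simpa using hx))
    simpa using this
  have hspan := mem_span_ev (fun x : s => ev (x : X)) K ε hε
    (fun f hf => hs f (fun x hx => hf ⟨x, hx⟩))
  rw [Submodule.mem_span_range_iff_exists_fun] at hspan
  obtain ⟨c, hc⟩ := hspan
  refine ⟨∑ x : s, Finsupp.single (x : X) (c x), fun f => ?_⟩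
  rw [← hc]
  simp [ev]

/-- A finitely supported measure on a Tychonoff space which vanishes on all continuous functions
is zero. -/
lemma finsupp_eq_zero [T35Space X] (μ : X →₀ ℝ)
    (h : ∀ f : X → ℝ, Continuous f → Finsupp.linearCombination ℝ f μ = 0) : μ = 0 := by
  classical
  ext x
  by_contra hx
  have hx' : x ∈ μ.support := by simpa using hx
  have hcl : IsClosed ((μ.support.erase x : Finset X) : Set X) := (Finset.finite_toSet _).isClosed
  obtain ⟨f, hf, hfx, hfK⟩ := CompletelyRegularSpace.completely_regular x _ hcl (by simp)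
  have h1 := h (fun z => 1 - (f z : ℝ)) (by fun_prop)
  rw [Finsupp.linearCombination_apply, Finsupp.sum, Finset.sum_eq_single x] at h1
  · simp [hfx] at h1
    exact hx (by simpa using h1)
  · intro y hy hyx
    have : f y = 1 := hfK (by rw [Finset.mem_coe, Finset.mem_erase]; exact ⟨hyx, hy⟩)
    simp [this]
  · intro hx2
    exact absurd hx' hx2

end functional

section main

variable {X : Type u} {Y : Type v} [TopologicalSpace X] [TopologicalSpace Y]

/-- total mass of a finitely supported measure on a set -/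
noncomputable def mass (F : Set Y) (μ : Y →₀ ℝ) : ℝ :=
  Finsupp.linearCombination ℝ (F.indicator 1 : Y → ℝ) μ

/-- The abstract core: a closing-off argument. -/
lemma core [LindelofSpace X] {I : Type*} (g : I → Y → ℝ) (hg : ∀ i, Continuous (g i))
    (hg0 : ∀ i y, 0 ≤ g i y) (hcov : ∀ y, ∃ i, g i y ≠ 0)
    (lam : X → (Y →₀ ℝ))
    (hlam : ∀ f : Y → ℝ, Continuous f →
      Continuous fun x => Finsupp.linearCombination ℝ f (lam x))
    (hspan : ∀ y : Y, Finsupp.single y (1 : ℝ) ∈ Submodule.span ℝ (Set.range lam)) :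
    ∃ t : Set I, t.Countable ∧ ∀ y, ∃ i ∈ t, g i y ≠ 0 := by
  classical
  by_contra hcon
  push Not at hcon
  -- the closed sets `F t`
  let F : Set I → Set Y := fun t => {y | ∀ i ∈ t, g i y = 0}
  have hFne : ∀ t : Set I, t.Countable → (F t).Nonempty := by
    intro t ht
    obtain ⟨y, hy⟩ := hcon t ht
    exact ⟨y, hy⟩
  -- step A
  have hA : ∀ t : Set I, t.Countable → ∃ x, mass (F t) (lam x) ≠ 0 := by
    intro t ht
    obtain ⟨y, hy⟩ := hFne t ht
    by_contra hno
    push Not at hno
    have hle : Submodule.span ℝ (Set.range lam) ≤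
        LinearMap.ker (Finsupp.linearCombination ℝ ((F t).indicator 1 : Y → ℝ)) := by
      rw [Submodule.span_le]
      rintro _ ⟨x, rfl⟩
      exact hno x
    have h1 := hle (hspan y)
    rw [LinearMap.mem_ker, Finsupp.linearCombination_single] at h1
    simp [Set.indicator_of_mem hy] at h1
  -- badness
  let Bad : Finset I → ℕ → Set I → X → Prop := fun W j V x =>
    (W : Set I) ⊆ V ∧ 1 / ((j : ℝ) + 1) ≤ |mass (F V) (lam x)| ∧
      ∀ y ∈ (lam x).support, y ∈ F V ∨ ∃ i ∈ W, 1 / ((j : ℝ) + 1) ≤ g i y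
  have hpos : ∀ j : ℕ, (0 : ℝ) < 1 / ((j : ℝ) + 1) := fun j => Nat.one_div_pos_of_nat
  -- step B
  have hB : ∀ (W : Finset I) (j : ℕ), ∃ V0 : Set I, V0.Countable ∧
      ∀ V : Set I, V.Countable → V0 ⊆ V → ∀ x, ¬ Bad W j V x := by
    intro W j
    by_contra hno
    push Not at hno
    let S : Set I → Set X := fun V0 => {x | ∃ V : Set I, V.Countable ∧ V0 ⊆ V ∧ Bad W j V x}
    have hSne : ∀ V0 : Set I, V0.Countable → (S V0).Nonempty := by
      intro V0 h0
      obtain ⟨V, hV, hsub, x, hx⟩ := hno V0 h0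
      exact ⟨x, V, hV, hsub, hx⟩
    have hSmono : ∀ V0 V1 : Set I, V0 ⊆ V1 → S V1 ⊆ S V0 := by
      rintro V0 V1 h01 x ⟨V, hV, hsub, hx⟩
      exact ⟨V, hV, h01.trans hsub, hx⟩
    obtain ⟨x, hx⟩ : ∃ x, ∀ V0 : Set I, V0.Countable → x ∈ closure (S V0) := by
      by_contra hemp
      push Not at hemp
      have h1 : (Set.univ ∩ ⋂ (V0 : {V : Set I // V.Countable}), closure (S V0)) = ∅ := by
        rw [Set.eq_empty_iff_forall_notMem]
        rintro x ⟨-, hx⟩
        obtain ⟨V0, h0, h0x⟩ := hemp x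
        exact h0x (Set.mem_iInter.1 hx ⟨V0, h0⟩)
      obtain ⟨u, hu, hue⟩ := (isLindelof_univ (X := X)).elim_countable_subfamily_closed
        (fun V0 : {V : Set I // V.Countable} => closure (S V0)) (fun _ => isClosed_closure) h1
      have hc : (⋃ V0 ∈ u, (V0 : Set I)).Countable := hu.biUnion fun V0 _ => V0.2
      obtain ⟨x, hx⟩ := hSne _ hc
      have : x ∈ (Set.univ ∩ ⋂ V0 ∈ u, closure (S (V0 : Set I))) := by
        refine ⟨trivial, ?_⟩
        simp only [Set.mem_iInter]
        intro V0 hV0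
        apply subset_closure
        exact hSmono _ _ (Set.subset_biUnion_of_mem (u := fun V0 : {V : Set I // V.Countable} =>
          (V0 : Set I)) hV0) hx
      rw [hue] at this
      exact this
    choose iy hiy using hcov
    let s := (lam x).support
    let V1 : Finset I := s.image iy
    let h : Y → ℝ := fun z => ∏ y ∈ s, (1 - min 1 (g (iy y) z / g (iy y) y))
    let f : Y → ℝ := fun z => ∏ i ∈ W, (1 - min 1 (((j : ℝ) + 1) * g i z))
    have hhc : Continuous h := by
      apply continuous_finsetProd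
      intro y _
      have := hg (iy y)
      fun_prop
    have hfc : Continuous f := by
      apply continuous_finsetProd
      intro i _
      have := hg i
      fun_prop
    have hh0 : ∀ y ∈ s, h y = 0 := by
      intro y hy
      apply Finset.prod_eq_zero hy
      rw [div_self (hiy y)]
      simp
    have hh1 : ∀ V : Set I, (V1 : Set I) ⊆ V → ∀ z ∈ F V, h z = 1 := by
      intro V hV z hz
      apply Finset.prod_eq_one
      intro y hy
      have : g (iy y) z = 0 := hz _ (hV (by simp [V1]; exact ⟨y, hy, rfl⟩))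
      simp [this]
    have hf1 : ∀ V : Set I, (W : Set I) ⊆ V → ∀ z ∈ F V, f z = 1 := by
      intro V hV z hz
      apply Finset.prod_eq_one
      intro i hi
      have : g i z = 0 := hz _ (hV hi)
      simp [this]
    have hf0 : ∀ z, (∃ i ∈ W, 1 / ((j : ℝ) + 1) ≤ g i z) → f z = 0 := by
      rintro z ⟨i, hi, hiz⟩
      apply Finset.prod_eq_zero hi
      have hj : (0 : ℝ) < (j : ℝ) + 1 := by positivity
      have : 1 ≤ ((j : ℝ) + 1) * g i z := by
        rw [div_le_iff₀ hj] at hiz
        linarith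
      rw [min_eq_left this]
      ring
    have hval0 : Finsupp.linearCombination ℝ (fun z => f z * h z) (lam x) = 0 := by
      rw [Finsupp.linearCombination_apply, Finsupp.sum]
      apply Finset.sum_eq_zero
      intro y hy
      simp [hh0 y hy]
    have hcont := hlam (fun z => f z * h z) (hfc.mul hhc)
    have hO : IsOpen {x' | |Finsupp.linearCombination ℝ (fun z => f z * h z) (lam x')| <
        1 / ((j : ℝ) + 1)} := isOpen_lt hcont.abs continuous_const
    have hxO : x ∈ {x' | |Finsupp.linearCombination ℝ (fun z => f z * h z) (lam x')| <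
        1 / ((j : ℝ) + 1)} := by
      simp only [Set.mem_ofPred_eq, hval0, abs_zero]
      exact hpos j
    obtain ⟨x', hx'O, V, hV, hV1, hWV, hmass, hsupp⟩ :=
      mem_closure_iff.1 (hx (V1 : Set I) V1.countable_toSet) _ hO hxO
    have hval : Finsupp.linearCombination ℝ (fun z => f z * h z) (lam x') =
        mass (F V) (lam x') := by
      rw [mass, Finsupp.linearCombination_apply, Finsupp.linearCombination_apply, Finsupp.sum,
        Finsupp.sum]
      apply Finset.sum_congr rfl
      intro y hy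
      by_cases hyF : y ∈ F V
      · rw [hf1 V hWV y hyF, hh1 V hV1 y hyF, Set.indicator_of_mem hyF]
        simp
      · rcases hsupp y hy with h1 | h1
        · exact absurd h1 hyF
        · rw [hf0 y h1, Set.indicator_of_notMem hyF]
          simp
    rw [Set.mem_ofPred_eq, hval] at hx'O
    exact absurd hx'O (not_lt.2 hmass)
  choose V0 hV0c hV0 using hB
  -- step C: closing off
  let step : Set I → Set I := fun V =>
    V ∪ ⋃ (W : Finset I) (_ : (W : Set I) ⊆ V) (j : ℕ), V0 W j
  let Vn : ℕ → Set I := fun n => step^[n] ∅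
  have hstepc : ∀ V : Set I, V.Countable → (step V).Countable := by
    intro V hV
    refine hV.union ?_
    have hWc : {W : Finset I | (W : Set I) ⊆ V}.Countable := by
      have h1 := Set.countable_ofPred_finite_subset hV
      refine Set.Countable.mono (s₂ := (fun W : Finset I => (W : Set I)) ⁻¹'
        {t : Set I | t.Finite ∧ t ⊆ V}) ?_ (h1.preimage_of_injOn ?_)
      · intro W hW
        exact ⟨W.finite_toSet, hW⟩
      · exact Finset.coe_injective.injOn
    have : (⋃ W ∈ {W : Finset I | (W : Set I) ⊆ V}, ⋃ j : ℕ, V0 W j).Countable :=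
      hWc.biUnion fun W _ => Set.countable_iUnion fun j => hV0c W j
    exact this
  have hVnc : ∀ n, (Vn n).Countable := by
    intro n
    induction n with
    | zero => exact Set.countable_empty
    | succ n ih =>
      change (step^[n+1] ∅).Countable
      rw [Function.iterate_succ_apply']
      exact hstepc _ ih
  have hVnm : Monotone Vn := by
    apply monotone_nat_of_le_succ
    intro n
    change Vn n ⊆ step^[n+1] ∅
    rw [Function.iterate_succ_apply']
    exact Set.subset_union_left
  let V : Set I := ⋃ n, Vn n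
  have hVc : V.Countable := Set.countable_iUnion hVnc
  have hVcl : ∀ (W : Finset I), (W : Set I) ⊆ V → ∀ j, V0 W j ⊆ V := by
    intro W hW j
    have : ∃ n, (W : Set I) ⊆ Vn n := by
      have h1 : ∀ i ∈ W, ∃ n, i ∈ Vn n := fun i hi => Set.mem_iUnion.1 (hW hi)
      choose! N hN using h1
      refine ⟨W.sup N, fun i hi => hVnm (Finset.le_sup (f := N) hi) (hN i hi)⟩
    obtain ⟨n, hn⟩ := this
    have h2 : V0 W j ⊆ Vn (n+1) := by
      change V0 W j ⊆ step^[n+1] ∅
      rw [Function.iterate_succ_apply']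
      refine Set.Subset.trans ?_ Set.subset_union_right
      exact Set.subset_iUnion_of_subset W (Set.subset_iUnion_of_subset hn
        (Set.subset_iUnion (fun j => V0 W j) j))
    exact h2.trans (Set.subset_iUnion _ _)
  obtain ⟨x, hx⟩ := hA V hVc
  -- find W and j
  have hmem : ∀ y : Y, ∃ i, y ∉ F V → (i ∈ V ∧ g i y ≠ 0) := by
    intro y
    by_cases hy : y ∈ F V
    · obtain ⟨i, _⟩ := hcov y
      exact ⟨i, fun h => absurd hy h⟩
    · have : ∃ i ∈ V, g i y ≠ 0 := by
        by_contra hno
        push Not at hno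
        exact hy hno
      obtain ⟨i, hi, hi'⟩ := this
      exact ⟨i, fun _ => ⟨hi, hi'⟩⟩
  choose iy hiy' using hmem
  have hiyV : ∀ y : Y, y ∉ F V → iy y ∈ V := fun y hy => (hiy' y hy).1
  have hiy : ∀ y : Y, y ∉ F V → g (iy y) y ≠ 0 := fun y hy => (hiy' y hy).2
  let s := (lam x).support.filter (fun y => y ∉ F V)
  let W : Finset I := s.image iy
  have hWV : (W : Set I) ⊆ V := by
    intro i hi
    simp only [W, Finset.coe_image, Set.mem_image, Finset.mem_coe] at hi
    obtain ⟨y, hy, rfl⟩ := hi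
    exact hiyV y (Finset.mem_filter.1 hy).2
  obtain ⟨ε, hε, hεm, hεs⟩ : ∃ ε > 0, ε ≤ |mass (F V) (lam x)| ∧ ∀ y ∈ s, ε ≤ g (iy y) y := by
    have hm : 0 < |mass (F V) (lam x)| := abs_pos.2 hx
    by_cases hne : s.Nonempty
    · refine ⟨min |mass (F V) (lam x)| (s.inf' hne fun y => g (iy y) y), ?_, min_le_left _ _, ?_⟩
      · rw [gt_iff_lt, lt_min_iff, Finset.lt_inf'_iff]
        refine ⟨hm, fun y hy => lt_of_le_of_ne (hg0 _ _) (Ne.symm ?_)⟩
        exact hiy y (Finset.mem_filter.1 hy).2
      · intro y hy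
        exact (min_le_right _ _).trans (Finset.inf'_le _ hy)
    · exact ⟨_, hm, le_rfl, fun y hy => (hne ⟨y, hy⟩).elim⟩
  obtain ⟨j, hj⟩ := exists_nat_one_div_lt hε
  refine hV0 W j V hVc (hVcl W hWV j) x ⟨hWV, hj.le.trans hεm, ?_⟩
  intro y hy
  by_cases hyF : y ∈ F V
  · exact Or.inl hyF
  · refine Or.inr ⟨iy y, Finset.mem_image_of_mem _ (Finset.mem_filter.2 ⟨hy, hyF⟩), ?_⟩
    exact hj.le.trans (hεs y (Finset.mem_filter.2 ⟨hy, hyF⟩))

end main

/-- version with a bundled linear map -/
theorem main_aux {X : Type u} {Y : Type v} [TopologicalSpace X] [TopologicalSpace Y]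
    [T35Space X] [T35Space Y] [LindelofSpace X]
    (T : Cp Y →ₗ[ℝ] Cp X) (hT : IsEmbedding T) : LindelofSpace Y := by
  classical
  -- representing measures
  have hrep : ∀ x : X, ∃ μ : Y →₀ ℝ, ∀ f : Cp Y,
      (T f : X → ℝ) x = Finsupp.linearCombination ℝ (f : Y → ℝ) μ := by
    intro x
    have hc : Continuous (ev x ∘ₗ T) := by
      have h1 : Continuous fun f : Cp X => (f : X → ℝ) x :=
        (continuous_apply x).comp continuous_subtype_val
      exact h1.comp hT.continuous
    exact exists_finsupp (ev x ∘ₗ T) hc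
  choose lam hlam using hrep
  have hspan : ∀ y : Y, Finsupp.single y (1 : ℝ) ∈ Submodule.span ℝ (Set.range lam) := by
    intro y
    -- find a basic neighbourhood
    have hU : {f : Cp Y | |(f : Y → ℝ) y| < 1} ∈ 𝓝 (0 : Cp Y) := by
      have h1 : Continuous fun f : Cp Y => |(f : Y → ℝ) y| :=
        ((continuous_apply y).comp continuous_subtype_val).abs
      exact (isOpen_lt h1 continuous_const).mem_nhds (by simp)
    rw [hT.nhds_eq_comap, Filter.mem_comap] at hU
    obtain ⟨t0, ht0, ht0U⟩ := hU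
    rw [map_zero, nhds_subtype_eq_comap, Filter.mem_comap] at ht0
    obtain ⟨t, ht, htU⟩ := ht0
    have ht' : t ∈ 𝓝 (0 : X → ℝ) := by simpa using ht
    rw [nhds_pi, Filter.mem_pi] at ht'
    obtain ⟨J, hJ, W, hW, hWt⟩ := ht'
    have : ∀ x, ∃ ε > 0, Metric.ball (0 : ℝ) ε ⊆ W x := fun x => Metric.mem_nhds_iff.1 (hW x)
    choose e he heW using this
    obtain ⟨ε, hε, hεle⟩ : ∃ ε > 0, ∀ x ∈ hJ.toFinset, ε ≤ e x := by
      by_cases hne : hJ.toFinset.Nonempty
      · refine ⟨hJ.toFinset.inf' hne e, ?_, fun x hx => Finset.inf'_le _ hx⟩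
        rw [gt_iff_lt, Finset.lt_inf'_iff]
        exact fun x _ => he x
      · exact ⟨1, one_pos, fun x hx => (hne ⟨x, hx⟩).elim⟩
    have hsp := mem_span_ev (fun x : hJ.toFinset => (ev (x : X) ∘ₗ T)) (ev y) ε hε (by
      intro f hf
      have : f ∈ T ⁻¹' t0 := by
        apply htU
        apply hWt
        intro x hx
        apply heW x
        rw [Metric.mem_ball, dist_zero_right]
        exact (hf ⟨x, by simpa using hx⟩).trans_le (hεle x (by simpa using hx))
      exact ht0U this)
    rw [Submodule.mem_span_range_iff_exists_fun] at hsp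
    obtain ⟨c, hc⟩ := hsp
    have hzero : Finsupp.single y (1 : ℝ) - ∑ x : hJ.toFinset, c x • lam (x : X) = 0 := by
      apply finsupp_eq_zero
      intro f hf
      have h1 := LinearMap.congr_fun hc ⟨f, hf⟩
      rw [map_sub, map_sum, Finsupp.linearCombination_single]
      simp only [map_smul, smul_eq_mul, one_mul]
      rw [LinearMap.sum_apply] at h1
      have h2 : ∀ x : hJ.toFinset, (c x • (ev (x : X) ∘ₗ T)) ⟨f, hf⟩ =
          c x * Finsupp.linearCombination ℝ f (lam (x : X)) := by
        intro x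
        have := hlam (x : X) ⟨f, hf⟩
        simp only [LinearMap.smul_apply, LinearMap.comp_apply, smul_eq_mul]
        rw [← this]
        rfl
      rw [Finset.sum_congr rfl (fun x _ => h2 x)] at h1
      rw [h1]
      simp [ev]
    rw [sub_eq_zero] at hzero
    rw [hzero]
    exact Submodule.sum_mem _ fun x _ => Submodule.smul_mem _ _
      (Submodule.subset_span ⟨(x : X), rfl⟩)
  have hlamc : ∀ f : Y → ℝ, Continuous f →
      Continuous fun x => Finsupp.linearCombination ℝ f (lam x) := by
    intro f hf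
    have h1 : (fun x => Finsupp.linearCombination ℝ f (lam x)) = (T ⟨f, hf⟩ : X → ℝ) := by
      funext x
      exact (hlam x ⟨f, hf⟩).symm
    rw [h1]
    exact (T ⟨f, hf⟩).2
  refine ⟨isLindelof_of_countable_subcover ?_⟩
  intro ι U hU hcov
  have h1 : ∀ y : Y, ∃ i : ι, ∃ g : Y → ℝ, Continuous g ∧ (∀ z, 0 ≤ g z) ∧ g y ≠ 0 ∧
      ∀ z, g z ≠ 0 → z ∈ U i := by
    intro y
    obtain ⟨i, hi⟩ := Set.mem_iUnion.1 (hcov (Set.mem_univ y))
    obtain ⟨f, hf, hfy, hfK⟩ := CompletelyRegularSpace.completely_regular y (U i)ᶜ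
      (hU i).isClosed_compl (by simpa using hi)
    refine ⟨i, fun z => 1 - (f z : ℝ), by fun_prop, fun z => ?_, ?_, fun z hz => ?_⟩
    · have := (f z).2.2
      simpa using this
    · simp [hfy]
    · by_contra hzU
      have : f z = 1 := hfK hzU
      simp [this] at hz
  choose i g hgc hg0 hgy hgU using h1
  obtain ⟨t, ht, htc⟩ := core (X := X) g hgc hg0 (fun y => ⟨y, hgy y⟩) lam hlamc hspan
  refine ⟨i '' t, ht.image i, fun y _ => ?_⟩
  obtain ⟨z, hz, hzy⟩ := htc y
  rw [Set.mem_iUnion₂]
  exact ⟨i z, Set.mem_image_of_mem i hz, hgU z y hzy⟩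

/-- **Main theorem.** Let `X` and `Y` be Tychonoff spaces, `X` Lindelöf.  The type
`{f : X → ℝ // Continuous f}` with its subspace topology from the product `X → ℝ` is `C_p(X)`.
If there is a linear homeomorphic embedding `T` of `C_p(Y)` in `C_p(X)`, then `Y` is Lindelöf. -/
theorem result {X : Type u} {Y : Type v} [TopologicalSpace X] [TopologicalSpace Y]
    [T35Space X] [T35Space Y] [LindelofSpace X]
    (T : {f : Y → ℝ // Continuous f} → {f : X → ℝ // Continuous f})
    (hadd : ∀ f g : {f : Y → ℝ // Continuous f},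
      (T ⟨f.1 + g.1, f.2.add g.2⟩).1 = (T f).1 + (T g).1)
    (hsmul : ∀ (c : ℝ) (f : {f : Y → ℝ // Continuous f}),
      (T ⟨c • f.1, f.2.const_smul c⟩).1 = c • (T f).1)
    (hT : IsEmbedding T) : LindelofSpace Y := by
  let T' : Cp Y →ₗ[ℝ] Cp X :=
    { toFun := fun f => ⟨(T ⟨f.1, f.2⟩).1, (T ⟨f.1, f.2⟩).2⟩
      map_add' := fun f g => Subtype.ext (hadd ⟨f.1, f.2⟩ ⟨g.1, g.2⟩)
      map_smul' := fun c f => Subtype.ext (hsmul c ⟨f.1, f.2⟩) }
  exact main_aux T' hT

end Pool.Agent.Results.MP_7f09f8_gt.LinearEmbedding
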